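import Mathlib

/-!
# MP_8292e8_an: convex-cyclic operators whose square is not convex-cyclic

Q1 asks whether every (nonzero) separable Banach space `X` over `ℝ` or `ℂ` carries a
convex-cyclic operator `S` such that `S ^ 2` is not convex-cyclic.  We prove: YES, for every
nonzero separable Banach space, over both fields, finite or infinite dimensional.

Construction: fix `φ ∈ X*`, `e₀` with `φ e₀ = 1`, and a sequence `d` with `d 0 = e₀`,
`d (k+1) ∈ ker φ` whose span is dense.  Choose functionals `f j` (with `f 0 = φ`) vanishing on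
`d i`, `i < j`, and equal to `1` at `d j` when `d j` is not in the span of its predecessors.  Let
`K = ∑ c j • f j ⊗ d j` with very fast decreasing `c j > 0`.  `K` is upper triangular along `d`, so
it has eigenvectors `v j` (eigenvalue `c j`) with dense span, and `φ ∘ K = c 0 • φ`.  Put
`S = ω (2 + K)` with `ω = -1` (real case) or `ω = i` (complex case).  The vector
`x = ∑ b j • v j` is a convex-cyclic vector of `S`: for a nonzero functional `g` the numbers
`g (S^n x)` are asymptotic to `ζ (ω (2 + c j₀))^n` with `ζ ≠ 0`, so their real parts are unbounded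
above, and Hahn-Banach applies.  But `φ ∘ S² = ω² (2 + c 0)² φ` with `ω²` real, so the convex hull
of every orbit of `S²` lies in a closed half-space.
-/

open Filter Topology Set

namespace Pool.Agent.Results.MP_8292e8_an.SquareNotConvexCyclic

/-- An operator `T` is convex-cyclic if the convex hull of the orbit of some vector is dense. -/
def ConvexCyclic {𝕜 X : Type*} [RCLike 𝕜] [NormedAddCommGroup X] [NormedSpace 𝕜 X]
    [NormedSpace ℝ X] (T : X →L[𝕜] X) : Prop :=
  ∃ x : X, Dense (convexHull ℝ (Set.range fun n : ℕ => (T ^ n) x))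

/-- The span of the first `j` members of a sequence. -/
def V (𝕜 : Type*) {X : Type*} [RCLike 𝕜] [NormedAddCommGroup X] [NormedSpace 𝕜 X]
    (d : ℕ → X) (j : ℕ) : Submodule 𝕜 X := Submodule.span 𝕜 (d '' Set.Iio j)

variable {𝕜 X : Type*} [RCLike 𝕜] [NormedAddCommGroup X] [NormedSpace 𝕜 X]

lemma V_zero (d : ℕ → X) : V 𝕜 d 0 = ⊥ := by
  unfold V
  have : (Set.Iio 0 : Set ℕ) = ∅ := by ext i; simp
  rw [this, Set.image_empty, Submodule.span_empty]

lemma V_succ (d : ℕ → X) (j : ℕ) :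
    V 𝕜 d (j + 1) = (Submodule.span 𝕜 {d j}) ⊔ V 𝕜 d j := by
  unfold V
  rw [← Submodule.span_insert, ← Set.image_insert_eq]
  congr 2
  ext i
  simp only [Set.mem_Iio, Set.mem_insert_iff]
  omega

lemma V_mono (d : ℕ → X) {i j : ℕ} (h : i ≤ j) : V 𝕜 d i ≤ V 𝕜 d j :=
  Submodule.span_mono (Set.image_mono (Set.Iio_subset_Iio h))

lemma mem_V (d : ℕ → X) {i j : ℕ} (h : i < j) : d i ∈ V 𝕜 d j :=
  Submodule.subset_span ⟨i, h, rfl⟩

lemma exists_functional (d : ℕ → X) (j : ℕ) :
    ∃ f : X →L[𝕜] 𝕜, (∀ i < j, f (d i) = 0) ∧ (d j ∉ V 𝕜 d j → f (d j) = 1) := by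
  by_cases h : d j ∈ V 𝕜 d j
  · exact ⟨0, by simp, fun h' => absurd h h'⟩
  · have : FiniteDimensional 𝕜 (V 𝕜 d j) := by
      unfold V
      exact FiniteDimensional.span_of_finite 𝕜 ((Set.finite_Iio j).image d)
    have hc : IsClosed ((V 𝕜 d j : Submodule 𝕜 X) : Set X) := Submodule.closed_of_finiteDimensional _
    have hne : (V 𝕜 d j).mkQL (d j) ≠ 0 := by
      intro h0
      apply h
      have : (V 𝕜 d j).mkQ (d j) = 0 := h0
      rwa [Submodule.mkQ_apply, Submodule.Quotient.mk_eq_zero] at this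
    obtain ⟨g, hg⟩ := SeparatingDual.exists_eq_one (R := 𝕜) hne
    refine ⟨g.comp (V 𝕜 d j).mkQL, fun i hi => ?_, fun _ => hg⟩
    have : (V 𝕜 d j).mkQL (d i) = 0 := by
      show (V 𝕜 d j).mkQ (d i) = 0
      rw [Submodule.mkQ_apply, Submodule.Quotient.mk_eq_zero]
      exact mem_V d hi
    rw [ContinuousLinearMap.comp_apply, this, map_zero]

lemma surj (K : X →L[𝕜] X) (d : ℕ → X) (c : ℕ → ℝ)
    (hK : ∀ j, d j ∉ V 𝕜 d j → ∃ r ∈ V 𝕜 d j, K (d j) = (c j : 𝕜) • d j + r) :
    ∀ (j : ℕ) (μ : 𝕜), (∀ i < j, (c i : 𝕜) ≠ μ) → ∀ w ∈ V 𝕜 d j, ∃ u ∈ V 𝕜 d j,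
      K u - μ • u = w := by
  intro j
  induction j with
  | zero =>
    intro μ _ w hw
    rw [V_zero, Submodule.mem_bot] at hw
    exact ⟨0, Submodule.zero_mem _, by simp [hw]⟩
  | succ j ih =>
    intro μ hμ w hw
    by_cases h : d j ∈ V 𝕜 d j
    · have hV : V 𝕜 d (j + 1) = V 𝕜 d j := by
        rw [V_succ, sup_eq_right, Submodule.span_singleton_le_iff_mem]
        exact h
      rw [hV] at hw ⊢
      exact ih μ (fun i hi => hμ i (by omega)) w hw
    · obtain ⟨r, hr, hr'⟩ := hK j h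
      rw [V_succ, Submodule.mem_sup] at hw
      obtain ⟨y, hy, w', hw', rfl⟩ := hw
      rw [Submodule.mem_span_singleton] at hy
      obtain ⟨β, rfl⟩ := hy
      have hγ : (c j : 𝕜) - μ ≠ 0 := sub_ne_zero.mpr (hμ j (by omega))
      obtain ⟨u', hu', hu''⟩ := ih μ (fun i hi => hμ i (by omega))
        (w' - (β / ((c j : 𝕜) - μ)) • r)
        (Submodule.sub_mem _ hw' (Submodule.smul_mem _ _ hr))
      refine ⟨(β / ((c j : 𝕜) - μ)) • d j + u', ?_, ?_⟩
      · exact Submodule.add_mem _ (Submodule.smul_mem _ _ (mem_V d (by omega)))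
          (V_mono d (by omega) hu')
      · rw [map_add, map_smul, hr', smul_add μ]
        have h1 : (β / ((c j : 𝕜) - μ)) • ((c j : 𝕜) • d j + r) + K u' -
            (μ • (β / ((c j : 𝕜) - μ)) • d j + μ • u') =
            (β / ((c j : 𝕜) - μ) * ((c j : 𝕜) - μ)) • d j +
              (β / ((c j : 𝕜) - μ)) • r + (K u' - μ • u') := by
          module
        rw [h1, hu'', div_mul_cancel₀ _ hγ]
        abel

lemma exists_eigen (K : X →L[𝕜] X) (d : ℕ → X) (c : ℕ → ℝ) (hc : StrictAnti c)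
    (hK : ∀ j, d j ∉ V 𝕜 d j → ∃ r ∈ V 𝕜 d j, K (d j) = (c j : 𝕜) • d j + r) (j : ℕ) :
    ∃ v : X, K v = (c j : 𝕜) • v ∧ d j ∈ (Submodule.span 𝕜 {v}) ⊔ V 𝕜 d j := by
  by_cases h : d j ∈ V 𝕜 d j
  · exact ⟨0, by simp, Submodule.mem_sup_right h⟩
  · obtain ⟨r, hr, hr'⟩ := hK j h
    have hne : ∀ i < j, (c i : 𝕜) ≠ (c j : 𝕜) := by
      intro i hi h'
      have := RCLike.ofReal_injective h'
      have := hc hi
      linarith
    obtain ⟨u, hu, hu'⟩ := surj K d c hK j (c j : 𝕜) hne (-r) (Submodule.neg_mem _ hr)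
    refine ⟨d j + u, ?_, ?_⟩
    · rw [map_add, hr', smul_add]
      have : K u = (c j : 𝕜) • u - r := by
        rw [eq_add_of_sub_eq hu']; abel
      rw [this]; abel
    · rw [Submodule.mem_sup]
      exact ⟨d j + u, Submodule.mem_span_singleton_self _, -u, Submodule.neg_mem _ hu, by abel⟩


lemma pow_eigen (S : X →L[𝕜] X) (v : X) (a : 𝕜) (h : S v = a • v) (n : ℕ) :
    (S ^ n) v = a ^ n • v := by
  induction n with
  | zero => simp
  | succ n ih =>
    rw [pow_succ, mul_apply_eq_comp, h, map_smul, ih, smul_smul, pow_succ', mul_comm]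

lemma growth (S : X →L[𝕜] X) (v : ℕ → X) (a b : ℕ → ℝ) (ω : 𝕜)
    (hS : ∀ j, S (v j) = (ω * (a j : 𝕜)) • v j) (ha : StrictAnti a) (ha1 : ∀ j, 1 < a j)
    (hb : ∀ j, 0 < b j) (hsum : Summable fun j => b j * ‖v j‖)
    (hsumx : Summable fun j => (b j : 𝕜) • v j)
    (hω4 : ω ^ 4 = 1) (hω : ∀ ζ : 𝕜, ζ ≠ 0 → ∃ r : ℕ, 0 < RCLike.re (ω ^ r * ζ))
    (g : X →L[𝕜] 𝕜) (hg : ∃ j, g (v j) ≠ 0) (M : ℝ) :
    ∃ n : ℕ, M < RCLike.re (g ((S ^ n) (∑' j, (b j : 𝕜) • v j))) := by
  classical
  let j0 := Nat.find hg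
  have hj0 : g (v j0) ≠ 0 := Nat.find_spec hg
  have hlt : ∀ j < j0, g (v j) = 0 := fun j hj => by
    by_contra h
    exact Nat.find_min hg hj h
  have ha0 : 0 < a j0 := lt_trans one_pos (ha1 j0)
  -- the formula
  have hform : ∀ n : ℕ, g ((S ^ n) (∑' j, (b j : 𝕜) • v j)) =
      ω ^ n * ((a j0 : 𝕜) ^ n * ∑' j, (((a j / a j0) ^ n * b j : ℝ) : 𝕜) * g (v j)) := by
    intro n
    rw [ContinuousLinearMap.map_tsum _ hsumx, ContinuousLinearMap.map_tsum _
      ((S ^ n).summable hsumx), ← tsum_mul_left, ← tsum_mul_left]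
    congr 1
    ext j
    rw [map_smul, pow_eigen S (v j) _ (hS j) n, map_smul, map_smul, smul_eq_mul, smul_eq_mul]
    have : (a j0 : 𝕜) ≠ 0 := by exact_mod_cast ha0.ne'
    push_cast
    rw [div_pow, mul_pow]
    field_simp
  -- convergence
  have hconv : Tendsto (fun n : ℕ => ∑' j, (((a j / a j0) ^ n * b j : ℝ) : 𝕜) * g (v j)) atTop
      (𝓝 (∑' j, if j = j0 then ((b j : ℝ) : 𝕜) * g (v j) else 0)) := by
    apply tendsto_tsum_of_dominated_convergence (bound := fun j => ‖g‖ * (b j * ‖v j‖))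
      (hsum.mul_left _)
    · intro j
      by_cases h : j = j0
      · rw [if_pos h, h]
        have : ∀ n : ℕ, (((a j0 / a j0) ^ n * b j0 : ℝ) : 𝕜) * g (v j0) =
            ((b j0 : ℝ) : 𝕜) * g (v j0) := by
          intro n
          rw [div_self ha0.ne', one_pow, one_mul]
        simp_rw [this]
        exact tendsto_const_nhds
      · rw [if_neg h]
        rcases lt_or_gt_of_ne h with h | h
        · simp_rw [hlt j h, mul_zero]
          exact tendsto_const_nhds
        · have hr0 : 0 ≤ a j / a j0 := by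
            have := ha1 j
            positivity
          have hr1 : a j / a j0 < 1 := by
            rw [div_lt_one ha0]
            exact ha h
          have h1 := tendsto_pow_atTop_nhds_zero_of_lt_one hr0 hr1
          have h2 : Tendsto (fun n : ℕ => (((a j / a j0) ^ n * b j : ℝ) : 𝕜)) atTop
              (𝓝 (((0 * b j : ℝ)) : 𝕜)) :=
            (RCLike.continuous_ofReal.tendsto _).comp (h1.mul_const _)
          have h3 := h2.mul_const (g (v j))
          simpa using h3
    · refine Eventually.of_forall fun n j => ?_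
      rw [norm_mul]
      rcases lt_or_ge j j0 with h | h
      · rw [hlt j h]
        simp only [norm_zero, mul_zero]
        have := hb j
        positivity
      · have hr0 : 0 ≤ a j / a j0 := by
          have := ha1 j
          positivity
        have hr1 : a j / a j0 ≤ 1 := by
          rw [div_le_one ha0]
          exact ha.antitone h
        have h1 : (a j / a j0) ^ n ≤ 1 := pow_le_one₀ hr0 hr1
        have h2 : ‖(((a j / a j0) ^ n * b j : ℝ) : 𝕜)‖ ≤ b j := by
          rw [RCLike.norm_ofReal, abs_of_nonneg (mul_nonneg (pow_nonneg hr0 n) (hb j).le)]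
          nlinarith [hb j]
        calc ‖(((a j / a j0) ^ n * b j : ℝ) : 𝕜)‖ * ‖g (v j)‖
            ≤ b j * (‖g‖ * ‖v j‖) :=
              mul_le_mul h2 (g.le_opNorm _) (norm_nonneg _) (hb j).le
          _ = _ := by ring
  rw [tsum_ite_eq] at hconv
  set ζ : 𝕜 := ((b j0 : ℝ) : 𝕜) * g (v j0) with hζ
  have hζ0 : ζ ≠ 0 := mul_ne_zero (by exact_mod_cast (hb j0).ne') hj0
  obtain ⟨r, hr⟩ := hω ζ hζ0
  have hmono : Tendsto (fun m : ℕ => 4 * m + r) atTop atTop :=
    tendsto_atTop_mono (fun m => by show id m ≤ _; simp only [id]; omega) tendsto_id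
  have hconv2 := hconv.comp hmono
  have hconv3 : Tendsto (fun m : ℕ => RCLike.re (ω ^ r *
      ∑' j, (((a j / a j0) ^ (4 * m + r) * b j : ℝ) : 𝕜) * g (v j))) atTop
      (𝓝 (RCLike.re (ω ^ r * ζ))) :=
    (RCLike.continuous_re.tendsto _).comp (hconv2.const_mul _)
  have hpow : Tendsto (fun m : ℕ => (a j0) ^ (4 * m + r)) atTop atTop :=
    (tendsto_pow_atTop_atTop_of_one_lt (ha1 j0)).comp hmono
  have hfin := hpow.atTop_mul_pos hr hconv3
  obtain ⟨m, hm⟩ := (hfin.eventually_gt_atTop M).exists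
  refine ⟨4 * m + r, ?_⟩
  rw [hform]
  have h4 : ω ^ (4 * m + r) = ω ^ r := by
    rw [pow_add, pow_mul, hω4, one_pow, one_mul]
  rw [h4]
  have h5 : ω ^ r * ((a j0 : 𝕜) ^ (4 * m + r) *
      ∑' j, (((a j / a j0) ^ (4 * m + r) * b j : ℝ) : 𝕜) * g (v j)) =
      (((a j0) ^ (4 * m + r) : ℝ) : 𝕜) * (ω ^ r *
        ∑' j, (((a j / a j0) ^ (4 * m + r) * b j : ℝ) : 𝕜) * g (v j)) := by
    push_cast
    ring
  rw [h5, RCLike.re_ofReal_mul]
  exact hm


theorem core [CompleteSpace X] [TopologicalSpace.SeparableSpace X] [Nontrivial X]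
    [NormedSpace ℝ X] [IsScalarTower ℝ 𝕜 X] (ω : 𝕜) (hω4 : ω ^ 4 = 1)
    (hω : ∀ ζ : 𝕜, ζ ≠ 0 → ∃ r : ℕ, 0 < RCLike.re (ω ^ r * ζ))
    (hω2 : ∀ z : 𝕜, ∃ c : 𝕜, c ≠ 0 ∧ ∀ n : ℕ, RCLike.re (c * (ω ^ (2 * n) * z)) ≤ 0) :
    ∃ S : X →L[𝕜] X, ConvexCyclic S ∧ ¬ ConvexCyclic (S ^ 2) := by
  classical
  obtain ⟨e0, he0⟩ := exists_ne (0 : X)
  obtain ⟨φ, hφ⟩ := SeparatingDual.exists_eq_one (R := 𝕜) he0
  let y : ℕ → X := TopologicalSpace.denseSeq X
  let d : ℕ → X := fun n => Nat.casesOn n e0 (fun k => y k - φ (y k) • e0)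
  have hd0 : d 0 = e0 := rfl
  have hdS : ∀ k, d (k + 1) = y k - φ (y k) • e0 := fun k => rfl
  have hφS : ∀ k, φ (d (k + 1)) = 0 := by
    intro k
    rw [hdS, map_sub, map_smul, hφ, smul_eq_mul, mul_one, sub_self]
  choose f0 hf01 hf02 using exists_functional (𝕜 := 𝕜) d
  let f : ℕ → X →L[𝕜] 𝕜 := fun n => Nat.casesOn n φ (fun k => f0 (k + 1))
  have hf0 : f 0 = φ := rfl
  have hfS : ∀ k, f (k + 1) = f0 (k + 1) := fun k => rfl
  have hf1 : ∀ j, ∀ i < j, f j (d i) = 0 := by
    intro j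
    cases j with
    | zero => intro i hi; omega
    | succ j => rw [hfS]; exact hf01 (j + 1)
  have hf2 : ∀ j, d j ∉ V 𝕜 d j → f j (d j) = 1 := by
    intro j
    cases j with
    | zero => intro _; rw [hf0, hd0, hφ]
    | succ j => rw [hfS]; exact hf02 (j + 1)
  -- the coefficients
  let q : ℕ → ℝ := fun i => 1 / (2 * (1 + ‖f i‖ * ‖d i‖))
  have hq0 : ∀ i, 0 < q i := fun i => by positivity
  have hq1 : ∀ i, q i ≤ 1 / 2 := fun i => by
    show 1 / (2 * (1 + ‖f i‖ * ‖d i‖)) ≤ 1 / 2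
    apply one_div_le_one_div_of_le (by norm_num)
    have : 0 ≤ ‖f i‖ * ‖d i‖ := by positivity
    linarith
  have hq2 : ∀ i, q i * (‖f i‖ * ‖d i‖) ≤ 1 := fun i => by
    have h : 0 ≤ ‖f i‖ * ‖d i‖ := by positivity
    show 1 / (2 * (1 + ‖f i‖ * ‖d i‖)) * (‖f i‖ * ‖d i‖) ≤ 1
    rw [one_div, inv_mul_le_iff₀ (by positivity)]
    linarith
  let c : ℕ → ℝ := fun n => ∏ i ∈ Finset.range (n + 1), q i
  have hc0 : ∀ n, 0 < c n := fun n => Finset.prod_pos fun i _ => hq0 i
  have hcs : ∀ n, c (n + 1) = c n * q (n + 1) := fun n => Finset.prod_range_succ _ _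
  have hcanti : StrictAnti c := strictAnti_nat_of_succ_lt fun n => by
    rw [hcs]
    have := hq1 (n + 1)
    nlinarith [hc0 n]
  have hprod : ∀ n, ∏ i ∈ Finset.range n, q i ≤ (1 / 2) ^ n := by
    intro n
    have := Finset.prod_le_prod (s := Finset.range n) (f := q) (g := fun _ => (1 / 2 : ℝ))
      (fun i _ => (hq0 i).le) (fun i _ => hq1 i)
    simpa using this
  have hcb : ∀ n, c n * (‖f n‖ * ‖d n‖) ≤ (1 / 2) ^ n := by
    intro n
    have h1 : c n = (∏ i ∈ Finset.range n, q i) * q n := Finset.prod_range_succ _ _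
    rw [h1, mul_assoc]
    have h2 : 0 ≤ q n * (‖f n‖ * ‖d n‖) := by have := hq0 n; positivity
    have h3 : 0 < ∏ i ∈ Finset.range n, q i := Finset.prod_pos fun i _ => hq0 i
    calc _ ≤ (1 / 2) ^ n * 1 := mul_le_mul (hprod n) (hq2 n) h2 (by positivity)
      _ = _ := mul_one _
  have hgeo : Summable fun n : ℕ => ((1 : ℝ) / 2) ^ n := summable_geometric_two
  have hKs : Summable fun n => (c n : 𝕜) • (f n).smulRight (d n) := by
    refine Summable.of_norm_bounded hgeo fun n => ?_
    rw [norm_smul, RCLike.norm_ofReal, abs_of_pos (hc0 n),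
      ContinuousLinearMap.norm_smulRight_apply]
    exact hcb n
  let K : X →L[𝕜] X := ∑' n, (c n : 𝕜) • (f n).smulRight (d n)
  have hKx : ∀ x : X, Summable (fun n => ((c n : 𝕜) * f n x) • d n) ∧
      K x = ∑' n, ((c n : 𝕜) * f n x) • d n := by
    intro x
    have h1 := (ContinuousLinearMap.apply 𝕜 X x).hasSum hKs.hasSum
    have h2 : (fun n => (ContinuousLinearMap.apply 𝕜 X x) ((c n : 𝕜) • (f n).smulRight (d n))) =
        fun n => ((c n : 𝕜) * f n x) • d n := by
      ext n
      simp [mul_smul]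
    rw [h2] at h1
    exact ⟨h1.summable, h1.tsum_eq.symm⟩
  have hφK : ∀ x, φ (K x) = (c 0 : 𝕜) * φ x := by
    intro x
    rw [(hKx x).2, ContinuousLinearMap.map_tsum _ (hKx x).1, tsum_eq_single 0]
    · rw [map_smul, hd0, hφ, hf0, smul_eq_mul, mul_one]
    · intro n hn
      obtain ⟨k, rfl⟩ := Nat.exists_eq_succ_of_ne_zero hn
      rw [map_smul, hφS, smul_zero]
  have hKd : ∀ j, d j ∉ V 𝕜 d j → ∃ r ∈ V 𝕜 d j, K (d j) = (c j : 𝕜) • d j + r := by
    intro j hj
    refine ⟨∑ n ∈ Finset.range j, ((c n : 𝕜) * f n (d j)) • d n, ?_, ?_⟩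
    · exact Submodule.sum_mem _ fun n hn =>
        Submodule.smul_mem _ _ (mem_V d (Finset.mem_range.mp hn))
    · rw [(hKx (d j)).2, tsum_eq_sum (s := Finset.range (j + 1)), Finset.sum_range_succ,
        hf2 j hj, mul_one, add_comm]
      intro n hn
      rw [Finset.mem_range, not_lt] at hn
      rw [hf1 n j (by omega), mul_zero, zero_smul]
  choose v hv1 hv2 using exists_eigen K d c hcanti hKd
  have hspan : ∀ j, V 𝕜 d j ≤ Submodule.span 𝕜 (Set.range v) := by
    intro j
    induction j with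
    | zero => rw [V_zero]; exact bot_le
    | succ j ih =>
      rw [V_succ]
      refine sup_le ?_ ih
      rw [Submodule.span_singleton_le_iff_mem]
      have h1 : (Submodule.span 𝕜 {v j}) ⊔ V 𝕜 d j ≤ Submodule.span 𝕜 (Set.range v) :=
        sup_le (Submodule.span_mono (by rintro _ rfl; exact ⟨j, rfl⟩)) ih
      exact h1 (hv2 j)
  have hy : ∀ k, y k ∈ Submodule.span 𝕜 (Set.range v) := by
    intro k
    have h1 : d (k + 1) ∈ Submodule.span 𝕜 (Set.range v) := hspan (k + 2) (mem_V d (i := k + 1) (j := k + 2) (by omega))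
    have h2 : d 0 ∈ Submodule.span 𝕜 (Set.range v) := hspan 1 (mem_V d (i := 0) (j := 1) (by norm_num))
    have h3 : y k = d (k + 1) + φ (y k) • d 0 := by rw [hdS, hd0]; abel
    rw [h3]
    exact Submodule.add_mem _ h1 (Submodule.smul_mem _ _ h2)
  -- the operator
  let S : X →L[𝕜] X := ω • ((2 : 𝕜) • ContinuousLinearMap.id 𝕜 X + K)
  let a : ℕ → ℝ := fun j => 2 + c j
  have hSv : ∀ j, S (v j) = (ω * (a j : 𝕜)) • v j := by
    intro j
    show ω • ((2 : 𝕜) • v j + K (v j)) = _
    rw [hv1 j, ← add_smul, smul_smul]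
    congr 2
    show _ = ((2 + c j : ℝ) : 𝕜)
    rw [RCLike.ofReal_add, RCLike.ofReal_ofNat]
  have ha : StrictAnti a := fun i j h => by
    have := hcanti h
    show 2 + c j < 2 + c i
    linarith
  have ha1 : ∀ j, 1 < a j := fun j => by
    have := hc0 j
    show 1 < 2 + c j
    linarith
  let b : ℕ → ℝ := fun j => (1 / 2) ^ j / (1 + ‖v j‖)
  have hb : ∀ j, 0 < b j := fun j => by positivity
  have hbb : ∀ j, b j * ‖v j‖ ≤ (1 / 2) ^ j := fun j => by
    show (1 / 2) ^ j / (1 + ‖v j‖) * ‖v j‖ ≤ (1 / 2) ^ j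
    rw [div_mul_eq_mul_div, div_le_iff₀ (by positivity)]
    have h1 : (0 : ℝ) ≤ (1 / 2) ^ j := by positivity
    nlinarith [norm_nonneg (v j)]
  have hsum : Summable fun j => b j * ‖v j‖ :=
    Summable.of_nonneg_of_le (fun j => by have := hb j; positivity) hbb hgeo
  have hsumx : Summable fun j => (b j : 𝕜) • v j := by
    refine Summable.of_norm_bounded hgeo fun j => ?_
    rw [norm_smul, RCLike.norm_ofReal, abs_of_pos (hb j)]
    exact hbb j
  refine ⟨S, ⟨∑' j, (b j : 𝕜) • v j, ?_⟩, ?_⟩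
  · set x := ∑' j, (b j : 𝕜) • v j with hx
    intro z
    by_contra hz
    obtain ⟨g, u, hg1, hg2⟩ := RCLike.geometric_hahn_banach_closed_point (𝕜 := 𝕜)
      (convex_convexHull ℝ (Set.range fun n : ℕ => (S ^ n) x)).closure isClosed_closure hz
    have hmem : ∀ n : ℕ, (S ^ n) x ∈ closure (convexHull ℝ (Set.range fun n : ℕ => (S ^ n) x)) :=
      fun n => subset_closure (subset_convexHull ℝ _ ⟨n, rfl⟩)
    have hg : ∃ j, g (v j) ≠ 0 := by
      by_contra hcon
      push Not at hcon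
      have h0 : ∀ w ∈ Submodule.span 𝕜 (Set.range v), g w = 0 := by
        intro w hw
        induction hw using Submodule.span_induction with
        | mem w h => obtain ⟨j, rfl⟩ := h; exact hcon j
        | zero => exact map_zero g
        | add w1 w2 _ _ h1 h2 => rw [map_add, h1, h2, add_zero]
        | smul t w _ h => rw [map_smul, h, smul_zero]
      have h1 : ∀ w : X, g w = 0 := by
        intro w
        have hcl : IsClosed {w : X | g w = 0} := isClosed_eq g.continuous continuous_const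
        have hdense : Dense (Set.range y) := TopologicalSpace.denseRange_denseSeq X
        have : closure (Set.range y) ⊆ {w : X | g w = 0} :=
          closure_minimal (by rintro _ ⟨k, rfl⟩; exact h0 _ (hy k)) hcl
        exact this (hdense w)
      have h2 := hg1 _ (hmem 0)
      rw [h1] at h2 hg2
      simp only [map_zero] at h2 hg2
      linarith
    obtain ⟨n, hn⟩ := growth S v a b ω hSv ha ha1 hb hsum hsumx hω4 hω g hg u
    have := hg1 _ (hmem n)
    rw [hx] at this
    linarith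
  · rintro ⟨x, hx⟩
    have hφS' : ∀ w, φ (S w) = (ω * (a 0 : 𝕜)) * φ w := by
      intro w
      show φ (ω • ((2 : 𝕜) • w + K w)) = _
      rw [map_smul, map_add, map_smul, hφK, smul_eq_mul, smul_eq_mul]
      simp only [a]
      push_cast
      ring
    have hφn : ∀ n : ℕ, ∀ w, φ ((S ^ n) w) = (ω * (a 0 : 𝕜)) ^ n * φ w := by
      intro n
      induction n with
      | zero => intro w; simp
      | succ n ih => intro w; rw [pow_succ, mul_apply_eq_comp, ih, hφS', pow_succ]; ring
    obtain ⟨c', hc', hle⟩ := hω2 (φ x)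
    have hcl : IsClosed {w : X | RCLike.re (c' * φ w) ≤ 0} :=
      isClosed_le (RCLike.continuous_re.comp (continuous_const.mul φ.continuous)) continuous_const
    have hreal : ∀ (t : ℝ) (w : X), RCLike.re (c' * φ (t • w)) = t * RCLike.re (c' * φ w) := by
      intro t w
      rw [← algebraMap_smul 𝕜 t w, map_smul, smul_eq_mul]
      have : c' * ((algebraMap ℝ 𝕜) t * φ w) = (t : 𝕜) * (c' * φ w) := by
        have h : (algebraMap ℝ 𝕜) t = (t : 𝕜) := rfl
        rw [h]; ring
      rw [this, RCLike.re_ofReal_mul]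
    have hconv : Convex ℝ {w : X | RCLike.re (c' * φ w) ≤ 0} := by
      intro w1 h1 w2 h2 s t hs ht _
      have h1' : RCLike.re (c' * φ w1) ≤ 0 := h1
      have h2' : RCLike.re (c' * φ w2) ≤ 0 := h2
      show RCLike.re (c' * φ (s • w1 + t • w2)) ≤ 0
      rw [map_add, mul_add, map_add, hreal, hreal]
      nlinarith
    have hsub : convexHull ℝ (Set.range fun n : ℕ => ((S ^ 2) ^ n) x) ⊆
        {w : X | RCLike.re (c' * φ w) ≤ 0} := by
      apply convexHull_min _ hconv
      rintro _ ⟨n, rfl⟩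
      show RCLike.re (c' * φ (((S ^ 2) ^ n) x)) ≤ 0
      rw [← pow_mul, hφn, mul_pow]
      have h1 : c' * (ω ^ (2 * n) * (a 0 : 𝕜) ^ (2 * n) * φ x) =
          (((a 0) ^ (2 * n) : ℝ) : 𝕜) * (c' * (ω ^ (2 * n) * φ x)) := by
        push_cast; ring
      rw [h1, RCLike.re_ofReal_mul]
      have h2 : 0 ≤ (a 0) ^ (2 * n) := by
        have := ha1 0
        positivity
      exact mul_nonpos_of_nonneg_of_nonpos h2 (hle n)
    have hall := closure_minimal hsub hcl (hx (c'⁻¹ • e0))
    have : RCLike.re (c' * φ (c'⁻¹ • e0)) ≤ 0 := hall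
    rw [map_smul, hφ, smul_eq_mul, mul_one, mul_inv_cancel₀ hc', RCLike.one_re] at this
    linarith

/-- **Main result.** Every nonzero separable Banach space, real or complex, carries a
convex-cyclic operator whose square is not convex-cyclic. -/
theorem result :
    (∀ (X : Type*) [NormedAddCommGroup X] [NormedSpace ℝ X] [CompleteSpace X]
      [TopologicalSpace.SeparableSpace X] [Nontrivial X],
      ∃ S : X →L[ℝ] X, ConvexCyclic S ∧ ¬ ConvexCyclic (S ^ 2)) ∧
    (∀ (X : Type*) [NormedAddCommGroup X] [NormedSpace ℂ X] [CompleteSpace X]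
      [TopologicalSpace.SeparableSpace X] [Nontrivial X],
      ∃ S : X →L[ℂ] X, ConvexCyclic S ∧ ¬ ConvexCyclic (S ^ 2)) := by
  constructor
  · intro X _ _ _ _ _
    refine core (-1 : ℝ) (by norm_num) ?_ ?_
    · intro ζ hζ
      rcases lt_or_gt_of_ne hζ with h | h
      · exact ⟨1, by simpa using h⟩
      · exact ⟨0, by simpa using h⟩
    · intro z
      rcases le_or_gt z 0 with h | h
      · exact ⟨1, one_ne_zero, fun n => by simpa [pow_mul] using h⟩
      · exact ⟨-1, by norm_num, fun n => by simpa [pow_mul] using h.le⟩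
  · intro X _ _ _ _ _
    refine core Complex.I Complex.I_pow_four ?_ ?_
    · intro ζ hζ
      rcases lt_trichotomy ζ.re 0 with h | h | h
      · exact ⟨2, by simpa using h⟩
      · have him : ζ.im ≠ 0 := fun h' => hζ (Complex.ext h h')
        rcases lt_or_gt_of_ne him with h' | h'
        · exact ⟨1, by simpa using h'⟩
        · refine ⟨3, ?_⟩
          have : Complex.I ^ 3 = -Complex.I := by
            rw [pow_succ, Complex.I_sq]; ring
          rw [this]
          simpa using h'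
      · exact ⟨0, by simpa using h⟩
    · intro z
      by_cases hz : z = 0
      · exact ⟨1, one_ne_zero, fun n => by simp [hz]⟩
      · refine ⟨Complex.I * (starRingEnd ℂ) z, mul_ne_zero Complex.I_ne_zero ?_, fun n => ?_⟩
        · simpa using hz
        · have h1 : Complex.I ^ (2 * n) = (((-1 : ℝ) ^ n : ℝ) : ℂ) := by
            rw [pow_mul, Complex.I_sq]; push_cast; rfl
          have h2 : Complex.I * (starRingEnd ℂ) z * (Complex.I ^ (2 * n) * z) =
              (((-1 : ℝ) ^ n * Complex.normSq z : ℝ) : ℂ) * Complex.I := by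
            rw [h1]
            push_cast
            rw [← Complex.mul_conj z]
            ring
          rw [h2]
          apply le_of_eq
          show (((((-1 : ℝ) ^ n * Complex.normSq z : ℝ) : ℂ) * Complex.I)).re = 0
          rw [Complex.re_ofReal_mul]
          simp

end Pool.Agent.Results.MP_8292e8_an.SquareNotConvexCyclic
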